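import Pool.Agent.Q35.TB.Stm
import Pool.Agent.Q153.TT.ProdN

/-!
# Project TB (helper35): the product of the local inequalities (job PRD, helper65)
-/

set_option autoImplicit false

open Height AdmissibleAbsValues Function

namespace Pool.Agent.Q65.TB

open Pool.Agent.Q237.TT (fms_iSup fms_max)
open Pool.Agent.Q153.TT (map_prod_prod fms_prod)

section
variable {K : Type*} [Field K] [AdmissibleAbsValues K]

/-- The product of local inequalities with one constant at the archimedean places. -/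
theorem prd_aux {ι : Type*} [Finite ι] [Nonempty ι] {n : ℕ} {y : ι → K} {u : K}
    {z : Fin n → K} {a : Fin n → ℕ} {N : ℝ} (hy : y ≠ 0) (hu : u ≠ 0) (hN : 0 ≤ N)
    (h1 : ∀ v ∈ archAbsVal (K := K), ∀ i, v (y i) ≤ N * v u * ∏ j, max 1 (v (z j)) ^ a j)
    (h2 : ∀ v ∈ nonarchAbsVal (K := K), ∀ i, v (y i) ≤ v u * ∏ j, max 1 (v (z j)) ^ a j) :
    mulHeight y ≤ N ^ totalWeight K * ∏ j, mulHeight₁ (z j) ^ a j := by
  rw [mulHeight_eq hy]
  have hu' := product_formula hu
  have e1 : (archAbsVal.map fun v : AbsoluteValue K ℝ ↦ ⨆ i, v (y i)).prod ≤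
      (archAbsVal.map fun v : AbsoluteValue K ℝ ↦
        N * v u * ∏ j, max 1 (v (z j)) ^ a j).prod := by
    refine Multiset.prod_map_le_prod_map₀ _ _
      (fun v _ ↦ Real.iSup_nonneg_of_nonnegHomClass v _) fun v hv ↦ ciSup_le fun i ↦ h1 v hv i
  have e2 : (∏ᶠ v : nonarchAbsVal (K := K), ⨆ i, v.val (y i)) ≤
      ∏ᶠ v : nonarchAbsVal (K := K), (v.val u * ∏ j, max 1 (v.val (z j)) ^ a j) := by
    refine finprod_le_finprod (fms_iSup hy)
      (fun v ↦ Real.iSup_nonneg_of_nonnegHomClass v.val _) ?_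
      (fun v ↦ ciSup_le fun i ↦ h2 v.val v.2 i)
    exact (hasFiniteMulSupport hu).mul (fms_prod z a Finset.univ)
  have e3 : (archAbsVal.map fun v : AbsoluteValue K ℝ ↦
        N * v u * ∏ j, max 1 (v (z j)) ^ a j).prod =
      N ^ totalWeight K * (archAbsVal.map (· u)).prod *
        ∏ j, (archAbsVal.map fun v : AbsoluteValue K ℝ ↦ max (v (z j)) 1).prod ^ a j := by
    rw [Multiset.prod_map_mul, Multiset.prod_map_mul, map_prod_prod,
      Multiset.map_const', Multiset.prod_replicate]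
    congr 1
    refine Finset.prod_congr rfl fun j _ => ?_
    rw [Multiset.prod_map_pow]
    simp only [max_comm (1 : ℝ)]
  have e4 : (∏ᶠ v : nonarchAbsVal (K := K),
        (v.val u * ∏ j, max 1 (v.val (z j)) ^ a j)) =
      (∏ᶠ v : nonarchAbsVal (K := K), v.val u) *
        ∏ j, (∏ᶠ v : nonarchAbsVal (K := K), max (v.val (z j)) 1) ^ a j := by
    have g1 := finprod_mul_distrib (hasFiniteMulSupport hu) (fms_prod z a Finset.univ)
    rw [g1, finprod_prod_comm]
    · congr 1
      refine Finset.prod_congr rfl fun j _ => ?_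
      have g4 := finprod_pow (fms_max (z j)) (a j)
      rw [← g4]
      simp only [max_comm (1 : ℝ)]
    · intro j _
      exact (fms_max (z j)).pow (a j)
  have e5 : 0 ≤ ∏ᶠ v : nonarchAbsVal (K := K), ⨆ i, v.val (y i) :=
    finprod_nonneg fun v ↦ Real.iSup_nonneg_of_nonnegHomClass v.val _
  have e6 : 0 ≤ (archAbsVal.map fun v : AbsoluteValue K ℝ ↦
        N * v u * ∏ j, max 1 (v (z j)) ^ a j).prod := by
    refine Multiset.prod_map_nonneg fun v _ ↦ ?_
    positivity
  calc _ ≤ _ := mul_le_mul e1 e2 e5 e6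
    _ = _ := by
      rw [e3, e4]
      have e7 : ∏ j, mulHeight₁ (z j) ^ a j =
          (∏ j, (archAbsVal.map fun v : AbsoluteValue K ℝ ↦ max (v (z j)) 1).prod ^ a j) *
          ∏ j, (∏ᶠ v : nonarchAbsVal (K := K), max (v.val (z j)) 1) ^ a j := by
        rw [← Finset.prod_mul_distrib]
        refine Finset.prod_congr rfl fun j _ => ?_
        rw [mulHeight₁_eq, mul_pow]
      rw [e7]
      linear_combination (N ^ totalWeight K *
        (∏ j, (archAbsVal.map fun v : AbsoluteValue K ℝ ↦ max (v (z j)) 1).prod ^ a j) *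
        (∏ j, (∏ᶠ v : nonarchAbsVal (K := K), max (v.val (z j)) 1) ^ a j)) * hu'

end

/-- PRD: the product of the local inequalities. -/
theorem prd : Pool.Agent.Q35.TB.S_PRD := by
  intro L _ _ ι _ _ n y u z a B m hy hu hB hm h1 h2
  have hm' : (m : L) ≠ 0 := Nat.cast_ne_zero.mpr hm
  rw [← mulHeight_smul_eq_mulHeight y hm']
  have hy' : (m : L) • y ≠ 0 := smul_ne_zero hm' hy
  refine prd_aux hy' hu (by positivity) (fun v hv i ↦ ?_) (fun v hv i ↦ ?_)
  · rw [Pi.smul_apply, smul_eq_mul, map_mul]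
    have e := h1 v hv i
    have e' : v (m : L) ≤ m := v.apply_nat_le_self m
    calc v (m : L) * v (y i) ≤ m * (B * v u * ∏ j, max 1 (v (z j)) ^ a j) :=
          mul_le_mul e' e (v.nonneg _) (by positivity)
      _ = _ := by ring
  · rw [Pi.smul_apply, smul_eq_mul, map_mul, mul_comm]
    exact h2 v hv i

end Pool.Agent.Q65.TB
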